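import Pool.Agent.R3M.Stmts

set_option autoImplicit false

namespace Pool.Agent.R3M.H15

open Pool.Agent.R3M

theorem cro : CroStmt := by
  intro b c p q r s hp hq hr hs h1 h2 h3 h4
  obtain ⟨p1, p2⟩ := p
  obtain ⟨q1, q2⟩ := q
  obtain ⟨r1, r2⟩ := r
  obtain ⟨s1, s2⟩ := s
  simp only [ne_eq, Prod.mk.injEq] at hp hq hr hs
  simp only [Hex] at h1 h2 h3 h4
  simp only [cr]
  split_ifs <;> omega

end Pool.Agent.R3M.H15
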