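import Pool.Agent.R3M.Stmts
import Pool.Agent.R3M.Kit

set_option autoImplicit false

namespace Pool.Agent.R3M.H15

open Pool.Agent.R3M Pool.Agent.R3M.Kit

theorem kza (hTri : TriStmt) (hLsp : LspStmt) : KzaStmt := by
  intro α _ M I z0 L hz0 hi hL hn1 hn2 hp
  have hcard : (insert z0 I).card = I.card + 1 := Finset.card_insert_of_notMem hz0
  have hsnd : ∀ x ∈ (L.map Prod.snd).toFinset, x ∈ I := by
    intro x hx
    rw [List.mem_toFinset, List.mem_map] at hx
    obtain ⟨p, hpL, rfl⟩ := hx
    exact (hL p hpL).2.2.1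
  have hmain := hTri α (trunc M (I.card + 1)) (insert z0 I) L
    (by rw [hcard]; exact trunc_rk M (I.card + 1)) ⟨hi, hcard.le⟩
    (fun p hpL => by
      have h := hL p hpL
      rw [Finset.mem_insert, not_or]
      exact ⟨h.2.1, h.1⟩)
    (fun p hpL => Finset.mem_insert_of_mem (hL p hpL).2.2.1) hn1 hn2
    (fun p hpL => by
      have h := hL p hpL
      have hne : p.2 ≠ z0 := fun hc => hz0 (hc ▸ h.2.2.1)
      have heq : insert p.1 ((insert z0 I).erase p.2) =
          insert z0 (insert p.1 (I.erase p.2)) := by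
        rw [Finset.erase_insert_of_ne (Ne.symm hne), Finset.insert_comm]
      change (trunc M (I.card + 1)).Ind _
      rw [heq]
      refine ⟨hLsp α M I p.1 p.2 z0 h.1 h.2.2.1 hz0 h.2.2.2.1 h.2.2.2.2 hi, ?_⟩
      rw [← heq, card_exch _ (Finset.mem_insert_of_mem h.2.2.1), hcard]
      rw [Finset.mem_insert, not_or]
      exact ⟨h.2.1, h.1⟩)
    (hp.imp_of_mem (fun {p q} hpL hqL hpq harc => hpq (by
      refine M.sub harc.1 ?_
      exact Finset.insert_subset_insert _ (Finset.erase_subset_erase _ (Finset.subset_insert _ _)))))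
  have heq2 : (insert z0 I \ (L.map Prod.snd).toFinset) ∪ (L.map Prod.fst).toFinset =
      (I \ (L.map Prod.snd).toFinset) ∪ insert z0 (L.map Prod.fst).toFinset := by
    rw [Finset.insert_sdiff_of_notMem _ (fun h => hz0 (hsnd z0 h)), Finset.insert_union,
      Finset.union_insert]
  rw [heq2] at hmain
  exact hmain.1

end Pool.Agent.R3M.H15
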