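import Pool.Agent.R3M.Stmts
import Pool.Agent.R3M.Kit

set_option autoImplicit false

namespace Pool.Agent.R3M.H15

open Pool.Agent.R3M Pool.Agent.R3M.Kit

theorem kzg : KzgStmt := by
  classical
  intro α _ M N s q I V F hI hF hsq hV
  by_contra hcon
  push Not at hcon
  let Q : α → Prop := fun z => z ∈ V ∨ (z ∉ I ∧ (M.Ind (insert z I) ∨ ∃ f ∈ V, Arc M I f z))
  have h2 : (F.filter fun z => ¬ Q z).card ≤ (I \ V).card := by
    by_contra hlt
    push Not at hlt
    obtain ⟨z, hz, hz', hzi⟩ := M.aug (M.sub hI.1 Finset.sdiff_subset)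
      (M.sub hF.1 (Finset.filter_subset _ _)) hlt
    rw [Finset.mem_filter] at hz
    have hQ := hz.2
    simp only [Q, not_or, not_and, not_exists] at hQ
    have hzI : z ∉ I := fun h => hz' (Finset.mem_sdiff.2 ⟨h, hQ.1⟩)
    have hQ2 := hQ.2 hzI
    by_cases hne : I \ V = I
    · rw [hne] at hzi
      exact hQ2.1 hzi
    · obtain ⟨f, hf, hf', hfi⟩ := aug_one M hI.1 Finset.sdiff_subset hzI hzi hne
      refine hQ2.2 f ?_ hfi
      by_contra hfV
      exact hf' (Finset.mem_sdiff.2 ⟨hf, hfV⟩)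
  have h1 : (F.filter Q).card ≤ V.card := by
    by_contra hlt
    push Not at hlt
    obtain ⟨z, hz, hz', hzi⟩ := N.aug (N.sub hI.2.1 hV)
      (N.sub hF.2.1 (Finset.filter_subset _ _)) hlt
    rw [Finset.mem_filter] at hz
    have hzI := (hz.2.resolve_left hz').1
    have hzM := (hz.2.resolve_left hz').2
    have hc := hcon z hz.1 hzI hzM
    by_cases hne : V = I
    · rw [hne] at hzi
      exact hc.1 hzi
    · obtain ⟨f, hf, hf', hfi⟩ := aug_one N hI.2.1 hV hzI hzi hne
      exact hc.2 f hf hf' hfi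
  have h3 := Finset.card_filter_add_card_filter_not (s := F) Q
  have h4 : (I \ V).card + V.card = I.card := Finset.card_sdiff_add_card_eq_card hV
  have h5 := hI.2.2
  have h6 := hF.2.2
  omega

end Pool.Agent.R3M.H15
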