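import Pool.Agent.R3M.Stmts
import Pool.Agent.R3M.Kit

set_option autoImplicit false

namespace Pool.Agent.R3M.H15

open Pool.Agent.R3M Pool.Agent.R3M.Kit

theorem rdb_aux {α : Type} [DecidableEq α] (M : Mat α) {P V I : Finset α} (hP : M.Ind P)
    (hV : V ⊆ P) (hne : V ≠ P) (hI : M.Ind I)
    (h : ∀ z ∈ I, z ∉ V → z ∉ P ∧ ∀ w ∈ P, w ∉ V → ¬ Arc M P w z) : I.card ≤ V.card := by
  by_contra hlt
  push Not at hlt
  obtain ⟨z, hz, hz', hzi⟩ := M.aug (M.sub hP hV) hI hlt
  obtain ⟨h1, h2⟩ := h z hz hz'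
  obtain ⟨f, hf, hf', hfi⟩ := aug_one M hP hV h1 hzi hne
  exact h2 f hf hf' hfi

theorem rdb : RdbStmt := by
  classical
  intro α _ M N n S T U hS hM hN hirr
  unfold Irr at hirr
  push Not at hirr
  obtain ⟨P, hP, x, hx, y, hy, hxy⟩ := hirr
  let R : α → Prop := fun w => Relation.ReflTransGen (Stp M N P) x w
  have hPE : P ⊆ S ∪ T ∪ U := hM P hP.1
  have hxR : R x := Relation.ReflTransGen.refl
  refine ⟨(P.filter fun w => ¬ R w) ∪ ((S ∪ T ∪ U).filter fun z => z ∉ P ∧
      ∀ w ∈ P, R w → ¬ Arc M P w z),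
    (P.filter R) ∪ ((S ∪ T ∪ U).filter fun z => z ∉ P ∧ ∀ v ∈ P, ¬ R v → ¬ Arc N P v z),
    P.filter fun w => ¬ R w, P.filter R, ?_, Finset.subset_union_left, Finset.subset_union_left,
    ⟨y, Finset.mem_filter.2 ⟨hy, hxy⟩⟩, ⟨x, Finset.mem_filter.2 ⟨hx, hxR⟩⟩, ?_, ?_, ?_, ?_⟩
  · ext z
    simp only [Finset.mem_union, Finset.mem_filter]
    constructor
    · intro h
      rcases h with (h | h) | (h | h)
      · have := hPE h.1
        simpa only [Finset.mem_union] using this
      · exact h.1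
      · have := hPE h.1
        simpa only [Finset.mem_union] using this
      · exact h.1
    · intro h
      by_cases hzP : z ∈ P
      · by_cases hR : R z
        · exact Or.inr (Or.inl ⟨hzP, hR⟩)
        · exact Or.inl (Or.inl ⟨hzP, hR⟩)
      · by_cases hA : ∀ w ∈ P, R w → ¬ Arc M P w z
        · exact Or.inl (Or.inr ⟨h, hzP, hA⟩)
        · push Not at hA
          obtain ⟨w, hw, hwR, harc⟩ := hA
          refine Or.inr (Or.inr ⟨h, hzP, fun v hv hvR hvN => hvR ?_⟩)
          exact hwR.tail ⟨hw, hv, z, hzP, harc, hvN⟩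
  · exact (Finset.disjoint_filter_filter_not P P R).symm
  · have : (P.filter fun w => ¬ R w) ∪ P.filter R = P := by
      rw [Finset.union_comm]
      exact Finset.filter_union_filter_not_eq R P
    rw [this]
    exact hP
  · intro I hI hIA
    refine rdb_aux M hP.1 (Finset.filter_subset _ _) ?_ hI ?_
    · intro hc
      have := hc ▸ hx
      exact (Finset.mem_filter.1 this).2 hxR
    · intro z hz hzV
      have := hIA hz
      rcases Finset.mem_union.1 this with h | h
      · exact absurd h hzV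
      · have h' := (Finset.mem_filter.1 h).2
        refine ⟨h'.1, fun w hw hwV => h'.2 w hw ?_⟩
        by_contra hR
        exact hwV (Finset.mem_filter.2 ⟨hw, hR⟩)
  · intro I hI hIB
    refine rdb_aux N hP.2.1 (Finset.filter_subset _ _) ?_ hI ?_
    · intro hc
      have := hc ▸ hy
      exact hxy (Finset.mem_filter.1 this).2
    · intro z hz hzV
      have := hIB hz
      rcases Finset.mem_union.1 this with h | h
      · exact absurd h hzV
      · have h' := (Finset.mem_filter.1 h).2
        exact ⟨h'.1, fun w hw hwV => h'.2 w hw (fun hR => hwV (Finset.mem_filter.2 ⟨hw, hR⟩))⟩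

end Pool.Agent.R3M.H15
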